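import Pool.Agent.W839.Ch.Stubs

/-! CH-7 (helper120): lower tail of a quadratic form in random signs -/

set_option autoImplicit false
open scoped Classical
open Finset

namespace Pool.Agent.W120.Ch

/-- the sign of a bit -/
noncomputable def sg (b : Bool) : ℝ := if b then 1 else -1

theorem sg_mul_self (b : Bool) : sg b * sg b = 1 := by cases b <;> simp [sg]

theorem sg_not (b : Bool) : sg (!b) = - sg b := by cases b <;> simp [sg]

variable {V : Type} [Fintype V]

/-- flip one bit -/
noncomputable def fl (u : V) : (V → Bool) ≃ (V → Bool) where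
  toFun τ := Function.update τ u (!τ u)
  invFun τ := Function.update τ u (!τ u)
  left_inv τ := by
    ext v
    by_cases h : v = u
    · subst h; simp
    · simp [h]
  right_inv τ := by
    ext v
    by_cases h : v = u
    · subst h; simp
    · simp [h]

omit [Fintype V] in
theorem fl_self (u : V) (τ : V → Bool) : fl u τ u = !τ u := by simp [fl]

omit [Fintype V] in
theorem fl_ne {u v : V} (h : v ≠ u) (τ : V → Bool) : fl u τ v = τ v := by simp [fl, h]

theorem sum_flip (u : V) (g : (V → Bool) → ℝ) (hg : ∀ τ, g (fl u τ) = - g τ) : ∑ τ, g τ = 0 := by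
  have h1 : ∑ τ, g τ = ∑ τ, g (fl u τ) := (Equiv.sum_comp (fl u) g).symm
  simp only [hg, Finset.sum_neg_distrib] at h1
  linarith

theorem S4 (u v w z : V) (huv : u ≠ v) (hwz : w ≠ z) :
    ∑ τ : V → Bool, sg (τ u) * sg (τ v) * (sg (τ w) * sg (τ z)) =
      2 ^ Fintype.card V * ((if u = w ∧ v = z then 1 else 0) + (if u = z ∧ v = w then 1 else 0)) := by
  have hone : ∀ g : (V → Bool) → ℝ, (∀ τ, g τ = 1) → ∑ τ, g τ = 2 ^ Fintype.card V := by
    intro g hg
    simp [hg]
  by_cases h1 : u = w
  · subst h1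
    by_cases h2 : v = z
    · subst h2
      rw [if_pos ⟨rfl, rfl⟩, if_neg (fun h => huv h.1), add_zero, mul_one]
      apply hone
      intro τ
      have := sg_mul_self (τ u)
      have := sg_mul_self (τ v)
      calc _ = (sg (τ u) * sg (τ u)) * (sg (τ v) * sg (τ v)) := by ring
        _ = 1 := by rw [sg_mul_self, sg_mul_self, one_mul]
    · rw [if_neg (fun h => h2 h.2), if_neg (fun h => huv h.2.symm), add_zero, mul_zero]
      apply sum_flip v
      intro τ
      rw [fl_self, fl_ne huv, fl_ne (Ne.symm h2), sg_not]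
      ring
  · by_cases h2 : u = z
    · subst h2
      by_cases h3 : v = w
      · subst h3
        rw [if_neg (fun h => h1 h.1), if_pos ⟨rfl, rfl⟩, zero_add, mul_one]
        apply hone
        intro τ
        calc _ = (sg (τ u) * sg (τ u)) * (sg (τ v) * sg (τ v)) := by ring
          _ = 1 := by rw [sg_mul_self, sg_mul_self, one_mul]
      · rw [if_neg (fun h => h1 h.1), if_neg (fun h => h3 h.2), add_zero, mul_zero]
        apply sum_flip v
        intro τ
        rw [fl_self, fl_ne huv, fl_ne (Ne.symm h3), sg_not]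
        ring
    · rw [if_neg (fun h => h1 h.1), if_neg (fun h => h2 h.1), add_zero, mul_zero]
      apply sum_flip u
      intro τ
      rw [fl_self, fl_ne (Ne.symm huv), fl_ne (Ne.symm h1), fl_ne (Ne.symm h2), sg_not]
      ring

/-- second moment of an off-diagonal quadratic form in signs -/
theorem second_moment (N : V → V → ℝ) (hN : ∀ v, N v v = 0) (hs : ∀ u v, N u v = N v u) :
    ∑ τ : V → Bool, (∑ u, ∑ v, sg (τ u) * sg (τ v) * N u v) ^ 2 =
      2 ^ Fintype.card V * (2 * ∑ u, ∑ v, N u v ^ 2) := by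
  have e1 : ∀ τ : V → Bool, (∑ u, ∑ v, sg (τ u) * sg (τ v) * N u v) ^ 2
      = ∑ p : V × V, ∑ q : V × V, N p.1 p.2 * N q.1 q.2 *
        (sg (τ p.1) * sg (τ p.2) * (sg (τ q.1) * sg (τ q.2))) := by
    intro τ
    rw [← Fintype.sum_prod_type' (f := fun u v => sg (τ u) * sg (τ v) * N u v), sq,
      Finset.sum_mul_sum]
    refine Finset.sum_congr rfl fun p _ => Finset.sum_congr rfl fun q _ => by ring
  rw [Finset.sum_congr rfl fun τ _ => e1 τ, Finset.sum_comm]
  have e2 : ∀ p : V × V, ∑ τ : V → Bool, ∑ q : V × V, N p.1 p.2 * N q.1 q.2 *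
        (sg (τ p.1) * sg (τ p.2) * (sg (τ q.1) * sg (τ q.2)))
      = 2 ^ Fintype.card V * (2 * N p.1 p.2 ^ 2) := by
    intro p
    rw [Finset.sum_comm]
    have e3 : ∀ q : V × V, ∑ τ : V → Bool, N p.1 p.2 * N q.1 q.2 *
        (sg (τ p.1) * sg (τ p.2) * (sg (τ q.1) * sg (τ q.2)))
        = 2 ^ Fintype.card V * ((if q = (p.1, p.2) then N p.1 p.2 * N p.1 p.2 else 0)
          + (if q = (p.2, p.1) then N p.1 p.2 * N p.2 p.1 else 0)) := by
      intro q
      rw [← Finset.mul_sum]
      by_cases hp : p.1 = p.2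
      · rw [hp, hN]; simp
      by_cases hq : q.1 = q.2
      · rw [hq, hN]
        have h1 : q ≠ (p.1, p.2) := by
          rintro rfl; exact hp hq
        have h2 : q ≠ (p.2, p.1) := by
          rintro rfl; exact hp hq.symm
        rw [if_neg h1, if_neg h2]; simp
      rw [S4 _ _ _ _ hp hq]
      by_cases h1 : q = (p.1, p.2)
      · have h2 : q ≠ (p.2, p.1) := by
          rintro h2
          rw [h1, Prod.mk.injEq] at h2
          exact hp h2.1
        rw [if_pos h1, if_neg h2, if_pos ⟨by rw [h1], by rw [h1]⟩,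
          if_neg (by rw [h1]; exact fun h => hp h.1), h1]
        ring
      · rw [if_neg h1, if_neg (fun h => h1 (Prod.ext h.1.symm h.2.symm))]
        by_cases h2 : q = (p.2, p.1)
        · rw [if_pos h2, if_pos ⟨by rw [h2], by rw [h2]⟩, h2]
          ring
        · rw [if_neg h2, if_neg (fun h => h2 (Prod.ext h.2.symm h.1.symm))]
          ring
    rw [Finset.sum_congr rfl fun q _ => e3 q, ← Finset.mul_sum, Finset.sum_add_distrib,
      Finset.sum_ite_eq', Finset.sum_ite_eq', if_pos (Finset.mem_univ _),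
      if_pos (Finset.mem_univ _), hs p.2 p.1]
    ring
  rw [Finset.sum_congr rfl fun p _ => e2 p, ← Finset.mul_sum, ← Finset.mul_sum,
    Fintype.sum_prod_type]

/-- CH-7, with the hypothesis `0 ≤ L` (needed for empty `V`) -/
theorem cha (V I : Type) [Fintype V] [Fintype I] (b : I → V → ℝ) (L : ℝ) (hL : 0 ≤ L)
    (hb : ∀ x : V → ℝ, ∑ i, (∑ v, b i v * x v) ^ 2 ≤ L * ∑ v, x v ^ 2) :
    ((Finset.univ.filter (fun τ : V → Bool =>
      ∑ i, (∑ v, (if τ v then b i v else - b i v)) ^ 2 ≤ (1 / 2) * ∑ i, ∑ v, b i v ^ 2)).card : ℝ)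
      * (∑ i, ∑ v, b i v ^ 2) ≤ 8 * L * 2 ^ Fintype.card V := by
  set Q0 := ∑ i, ∑ v, b i v ^ 2 with hQ0
  set Q : (V → Bool) → ℝ := fun τ => ∑ i, (∑ v, (if τ v then b i v else - b i v)) ^ 2 with hQ
  set M : V → V → ℝ := fun u v => ∑ i, b i u * b i v with hM
  set N : V → V → ℝ := fun u v => if u = v then 0 else M u v with hNdef
  have hQ0nn : 0 ≤ Q0 := by positivity
  have hQM : ∀ τ, Q τ = ∑ u, ∑ v, sg (τ u) * sg (τ v) * M u v := by
    intro τ
    have h1 : ∀ i, (∑ v, (if τ v then b i v else - b i v)) ^ 2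
        = ∑ u, ∑ v, sg (τ u) * sg (τ v) * (b i u * b i v) := by
      intro i
      have h2 : ∀ v, (if τ v then b i v else - b i v) = sg (τ v) * b i v := by
        intro v
        unfold sg
        split_ifs <;> ring
      rw [Finset.sum_congr rfl fun v _ => h2 v, sq, Finset.sum_mul_sum]
      refine Finset.sum_congr rfl fun u _ => Finset.sum_congr rfl fun v _ => by ring
    show ∑ i, (∑ v, (if τ v then b i v else - b i v)) ^ 2 = _
    rw [Finset.sum_congr rfl fun i _ => h1 i, Finset.sum_comm]
    refine Finset.sum_congr rfl fun u _ => ?_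
    rw [Finset.sum_comm]
    refine Finset.sum_congr rfl fun v _ => ?_
    rw [← Finset.mul_sum]
  have hQ0M : Q0 = ∑ v, M v v := by
    rw [hQ0, Finset.sum_comm]
    refine Finset.sum_congr rfl fun v _ => Finset.sum_congr rfl fun i _ => by ring
  have hD : ∀ τ, Q τ - Q0 = ∑ u, ∑ v, sg (τ u) * sg (τ v) * N u v := by
    intro τ
    rw [hQM, hQ0M, ← Finset.sum_sub_distrib]
    refine Finset.sum_congr rfl fun u _ => ?_
    have h1 : ∑ v, sg (τ u) * sg (τ v) * M u v - ∑ v, sg (τ u) * sg (τ v) * N u v = M u u := by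
      rw [← Finset.sum_sub_distrib, Finset.sum_eq_single u]
      · rw [hNdef]
        simp only [if_true]
        rw [mul_zero, sub_zero, sg_mul_self, one_mul]
      · intro v _ hv
        rw [hNdef]
        simp only [if_neg (Ne.symm hv), sub_self]
      · intro h; exact absurd (Finset.mem_univ u) h
    linarith
  have hmom := second_moment N (fun v => by simp [hNdef]) (fun u v => by
    simp only [hNdef, hM]
    by_cases h : u = v
    · rw [if_pos h, if_pos h.symm]
    · rw [if_neg h, if_neg (Ne.symm h)]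
      exact Finset.sum_congr rfl fun i _ => by ring)
  have hbound : ∑ u, ∑ v, N u v ^ 2 ≤ L * Q0 := by
    calc ∑ u, ∑ v, N u v ^ 2 ≤ ∑ u, ∑ v, M u v ^ 2 := by
          refine Finset.sum_le_sum fun u _ => Finset.sum_le_sum fun v _ => ?_
          rw [hNdef]
          by_cases h : u = v
          · simp only [if_pos h]; nlinarith [sq_nonneg (M u v)]
          · simp only [if_neg h]; exact le_rfl
      _ = ∑ l, ∑ i, (∑ v, b i v * b l v) ^ 2 := by
          have h1 : ∀ u v, M u v ^ 2 = ∑ l, ∑ i, (b l u * b l v) * (b i u * b i v) := by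
            intro u v
            rw [hM, sq]
            simp only
            rw [Finset.sum_mul_sum]
          have h2 : ∀ l i, (∑ v, b i v * b l v) ^ 2
              = ∑ u, ∑ v, (b l u * b l v) * (b i u * b i v) := by
            intro l i
            rw [sq, Finset.sum_mul_sum]
            refine Finset.sum_congr rfl fun u _ => Finset.sum_congr rfl fun v _ => by ring
          simp only [h1, h2]
          rw [Finset.sum_congr rfl fun u _ => Finset.sum_comm, Finset.sum_comm]
          refine Finset.sum_congr rfl fun l _ => ?_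
          rw [Finset.sum_congr rfl fun u _ => Finset.sum_comm, Finset.sum_comm]
      _ ≤ ∑ l, L * ∑ v, b l v ^ 2 := Finset.sum_le_sum fun l _ => hb (b l)
      _ = L * Q0 := by rw [← Finset.mul_sum]
  -- Chebyshev
  set B := Finset.univ.filter (fun τ : V → Bool => Q τ ≤ (1 / 2) * Q0) with hB
  have hcheb : (B.card : ℝ) * (Q0 / 2) ^ 2 ≤ 2 ^ Fintype.card V * (2 * (L * Q0)) := by
    calc (B.card : ℝ) * (Q0 / 2) ^ 2 = ∑ τ ∈ B, (Q0 / 2) ^ 2 := by
          rw [Finset.sum_const, nsmul_eq_mul]
      _ ≤ ∑ τ ∈ B, (Q τ - Q0) ^ 2 := by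
          refine Finset.sum_le_sum fun τ hτ => ?_
          rw [hB, Finset.mem_filter] at hτ
          nlinarith [hτ.2]
      _ ≤ ∑ τ, (Q τ - Q0) ^ 2 :=
          Finset.sum_le_sum_of_subset_of_nonneg (Finset.subset_univ _) fun _ _ _ => sq_nonneg _
      _ = 2 ^ Fintype.card V * (2 * ∑ u, ∑ v, N u v ^ 2) := by
          rw [← hmom]
          exact Finset.sum_congr rfl fun τ _ => by rw [hD τ]
      _ ≤ 2 ^ Fintype.card V * (2 * (L * Q0)) := by
          refine mul_le_mul_of_nonneg_left ?_ (by positivity)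
          linarith
  show (B.card : ℝ) * Q0 ≤ 8 * L * 2 ^ Fintype.card V
  rcases hQ0nn.eq_or_lt with h0 | h0
  · rw [← h0, mul_zero]; positivity
  · have h1 : ((B.card : ℝ) * Q0) * Q0 ≤ (8 * L * 2 ^ Fintype.card V) * Q0 := by
      nlinarith
    exact le_of_mul_le_mul_right h1 h0

end Pool.Agent.W120.Ch
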