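import Pool.Agent.W839.Ch.Stubs

/-! CH-6 (helper120): the Littlewood-Offord inequality of Erdős -/

set_option autoImplicit false
open scoped Classical
open Finset

namespace Pool.Agent.W120.Ch

theorem central_sq (k : ℕ) : (Nat.centralBinom k) ^ 2 * (3 * k + 1) ≤ 16 ^ k := by
  induction k with
  | zero => simp
  | succ k ih =>
    have h1 := Nat.succ_mul_centralBinom_succ k
    -- (k+1) a_{k+1} = 2 (2k+1) a_k
    have h2 : (k + 1) ^ 2 * ((Nat.centralBinom (k + 1)) ^ 2 * (3 * (k + 1) + 1))
        ≤ (k + 1) ^ 2 * 16 ^ (k + 1) := by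
      have e1 : (k + 1) ^ 2 * ((Nat.centralBinom (k + 1)) ^ 2 * (3 * (k + 1) + 1))
          = ((k + 1) * Nat.centralBinom (k + 1)) ^ 2 * (3 * (k + 1) + 1) := by ring
      rw [e1, h1]
      have e2 : (2 * (2 * k + 1) * Nat.centralBinom k) ^ 2 * (3 * (k + 1) + 1)
          = Nat.centralBinom k ^ 2 * (4 * (2 * k + 1) ^ 2 * (3 * k + 4)) := by ring
      rw [e2]
      have e3 : 4 * (2 * k + 1) ^ 2 * (3 * k + 4) ≤ (3 * k + 1) * (16 * (k + 1) ^ 2) := by
        nlinarith
      calc Nat.centralBinom k ^ 2 * (4 * (2 * k + 1) ^ 2 * (3 * k + 4))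
          ≤ Nat.centralBinom k ^ 2 * ((3 * k + 1) * (16 * (k + 1) ^ 2)) :=
            Nat.mul_le_mul_left _ e3
        _ = (Nat.centralBinom k ^ 2 * (3 * k + 1)) * (16 * (k + 1) ^ 2) := by ring
        _ ≤ 16 ^ k * (16 * (k + 1) ^ 2) := Nat.mul_le_mul_right _ ih
        _ = (k + 1) ^ 2 * 16 ^ (k + 1) := by ring
    exact Nat.le_of_mul_le_mul_left h2 (by positivity)

theorem choose_half_sq (s : ℕ) (hs : 1 ≤ s) : (s.choose (s / 2)) ^ 2 * s ≤ 4 ^ s := by
  obtain ⟨k, rfl | rfl⟩ := Nat.even_or_odd' s
  · rw [show 2 * k / 2 = k by omega, ← Nat.centralBinom_eq_two_mul_choose, pow_mul]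
    calc Nat.centralBinom k ^ 2 * (2 * k) ≤ Nat.centralBinom k ^ 2 * (3 * k + 1) :=
          Nat.mul_le_mul_left _ (by omega)
      _ ≤ 16 ^ k := central_sq k
      _ = (4 ^ 2) ^ k := by norm_num
  · rw [show (2 * k + 1) / 2 = k by omega]
    have h1 : 2 * (2 * k + 1).choose k = Nat.centralBinom (k + 1) := by
      rw [Nat.centralBinom_eq_two_mul_choose, show 2 * (k + 1) = (2 * k + 1) + 1 by ring,
        Nat.choose_succ_succ, Nat.choose_symm_half]
      ring
    have h2 := central_sq (k + 1)
    rw [← h1] at h2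
    have h3 : 4 * (((2 * k + 1).choose k) ^ 2 * (2 * k + 1)) ≤ 4 * 4 ^ (2 * k + 1) := by
      calc 4 * (((2 * k + 1).choose k) ^ 2 * (2 * k + 1))
          = (2 * (2 * k + 1).choose k) ^ 2 * (2 * k + 1) := by ring
        _ ≤ (2 * (2 * k + 1).choose k) ^ 2 * (3 * (k + 1) + 1) :=
            Nat.mul_le_mul_left _ (by omega)
        _ ≤ 16 ^ (k + 1) := h2
        _ = 4 * 4 ^ (2 * k + 1) := by
            rw [show (16 : ℕ) = 4 ^ 2 by norm_num, ← pow_mul]; ring
    exact Nat.le_of_mul_le_mul_left h3 (by norm_num)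

theorem choose_half_le (s : ℕ) (hs : 1 ≤ s) :
    ((s.choose (s / 2) : ℕ) : ℝ) ≤ 2 ^ s / Real.sqrt s := by
  have hspos : (0 : ℝ) < s := by exact_mod_cast hs
  rw [le_div_iff₀ (Real.sqrt_pos.2 hspos)]
  have h1 : (((s.choose (s / 2) : ℕ) : ℝ) * Real.sqrt s) ^ 2 ≤ ((2 : ℝ) ^ s) ^ 2 := by
    rw [mul_pow, Real.sq_sqrt hspos.le]
    have h2 : (((s.choose (s / 2)) ^ 2 * s : ℕ) : ℝ) ≤ ((4 ^ s : ℕ) : ℝ) := by
      exact_mod_cast choose_half_sq s hs
    push_cast at h2
    rw [← pow_mul, mul_comm s 2, pow_mul]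
    norm_num
    exact h2
  exact le_of_sq_le_sq h1 (by positivity)

/-- base case: all coordinates are large -/
theorem lo_base (α : Type) [Fintype α] (b : α → ℝ) (h : ℝ) (hh : 0 < h) (hb : ∀ v, h ≤ |b v|)
    (R x : ℝ) (hR : 0 ≤ R) :
    ((Finset.univ.filter (fun σ : α → Bool =>
      |∑ v, (if σ v then b v else - b v) - x| ≤ R)).card : ℝ)
      ≤ (R / h + 1) * ((Fintype.card α).choose (Fintype.card α / 2) : ℕ) := by
  set g : Finset α → ℝ := fun A => 2 * ∑ v ∈ A, |b v| with hg
  set c : ℝ := x + ∑ v, |b v| with hc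
  set G : Finset (Finset α) := Finset.univ.filter (fun A => |g A - c| ≤ R) with hG
  set J : ℕ := ⌊R / h⌋₊ + 1 with hJ
  -- the map to sets
  set φ : (α → Bool) → Finset α := fun σ => Finset.univ.filter
    (fun v => 0 < (if σ v then b v else - b v)) with hφ
  have hbne : ∀ v, b v ≠ 0 := by
    intro v h0
    have := hb v
    rw [h0, abs_zero] at this
    linarith
  have hφinj : Function.Injective φ := by
    intro σ τ hst
    funext v
    have h1 : v ∈ φ σ ↔ v ∈ φ τ := by rw [hst]
    simp only [hφ, Finset.mem_filter, Finset.mem_univ, true_and] at h1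
    rcases lt_or_gt_of_ne (hbne v) with h2 | h2 <;>
      cases h3 : σ v <;> cases h4 : τ v <;> simp only [h3, h4] at h1 ⊢ <;>
      simp at h1 <;> obtain ⟨h5, h6⟩ := h1 <;> first | linarith [h5 h2] | linarith [h6 h2]
  have hsum : ∀ σ : α → Bool, ∑ v, (if σ v then b v else - b v) - x = g (φ σ) - c := by
    intro σ
    have h1 : ∀ v, (if σ v then b v else - b v)
        = 2 * (if 0 < (if σ v then b v else - b v) then |b v| else 0) - |b v| := by
      intro v
      rcases lt_or_gt_of_ne (hbne v) with h2 | h2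
      · rw [abs_of_neg h2]
        cases σ v
        · simp [h2]; ring
        · simp [not_lt.2 h2.le]
      · rw [abs_of_pos h2]
        cases σ v
        · simp [not_lt.2 h2.le]
        · simp [h2]; ring
    rw [hg, hc, Finset.sum_congr rfl fun v _ => h1 v, Finset.sum_sub_distrib, ← Finset.mul_sum]
    simp only [hφ]
    rw [Finset.sum_filter]
    ring
  have hcard1 : (Finset.univ.filter (fun σ : α → Bool =>
      |∑ v, (if σ v then b v else - b v) - x| ≤ R)).card ≤ G.card := by
    apply Finset.card_le_card_of_injOn φ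
    · intro σ hσ
      simp only [Finset.coe_filter, Finset.mem_univ, true_and, Set.mem_ofPred_eq] at hσ
      rw [hG, Finset.mem_coe, Finset.mem_filter]
      refine ⟨Finset.mem_univ _, ?_⟩
      rw [← hsum]
      exact hσ
    · exact hφinj.injOn
  -- slices
  have hcover : G ⊆ (Finset.range J).biUnion (fun j => Finset.univ.filter
      (fun A : Finset α => ⌊(g A - (c - R)) / (2 * h)⌋ = (j : ℤ))) := by
    intro A hA
    rw [hG, Finset.mem_filter, abs_le] at hA
    rw [Finset.mem_biUnion]
    have h1 : 0 ≤ (g A - (c - R)) / (2 * h) := by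
      apply div_nonneg _ (by positivity)
      linarith [hA.2.1]
    have h2 : (g A - (c - R)) / (2 * h) ≤ R / h := by
      rw [div_le_div_iff₀ (by positivity) hh]
      nlinarith [hA.2.2]
    refine ⟨⌊(g A - (c - R)) / (2 * h)⌋₊, ?_, ?_⟩
    · rw [Finset.mem_range, hJ]
      have := Nat.floor_le_floor h2
      omega
    · rw [Finset.mem_filter]
      refine ⟨Finset.mem_univ _, ?_⟩
      exact (Int.natCast_floor_eq_floor h1).symm
  have hslice : ∀ j : ℕ, (Finset.univ.filter
      (fun A : Finset α => ⌊(g A - (c - R)) / (2 * h)⌋ = (j : ℤ))).card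
      ≤ (Fintype.card α).choose (Fintype.card α / 2) := by
    intro j
    apply IsAntichain.sperner
    intro A hA B hB hne hAB
    simp only [Finset.coe_filter, Finset.mem_univ, true_and, Set.mem_ofPred_eq] at hA hB
    have hss : A ⊂ B := lt_of_le_of_ne hAB hne
    obtain ⟨v, hvB, hvA⟩ := Finset.exists_of_ssubset hss
    have h1 : g A + 2 * h ≤ g B := by
      have h2 : ∑ w ∈ insert v A, |b w| ≤ ∑ w ∈ B, |b w| := by
        apply Finset.sum_le_sum_of_subset_of_nonneg
        · intro w hw
          rw [Finset.mem_insert] at hw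
          rcases hw with rfl | hw
          · exact hvB
          · exact hAB hw
        · intro w _ _; exact abs_nonneg _
      rw [Finset.sum_insert hvA] at h2
      have h3 := hb v
      simp only [hg]
      linarith
    have h4 : (g A - (c - R)) / (2 * h) + 1 ≤ (g B - (c - R)) / (2 * h) := by
      rw [← sub_nonneg]
      have : (g B - (c - R)) / (2 * h) - ((g A - (c - R)) / (2 * h) + 1)
          = (g B - g A - 2 * h) / (2 * h) := by
        field_simp
        ring
      rw [this]
      apply div_nonneg _ (by positivity)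
      linarith
    have h5 := Int.floor_le_floor h4
    rw [Int.floor_add_one] at h5
    omega
  have hGcard : G.card ≤ J * (Fintype.card α).choose (Fintype.card α / 2) := by
    refine (Finset.card_le_card hcover).trans (Finset.card_biUnion_le.trans ?_)
    refine (Finset.sum_le_sum fun j _ => hslice j).trans ?_
    rw [Finset.sum_const, Finset.card_range, smul_eq_mul]
  have hJle : (J : ℝ) ≤ R / h + 1 := by
    rw [hJ]
    push_cast
    have := Nat.floor_le (div_nonneg hR hh.le)
    linarith
  calc ((Finset.univ.filter (fun σ : α → Bool =>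
      |∑ v, (if σ v then b v else - b v) - x| ≤ R)).card : ℝ) ≤ (G.card : ℝ) := by
        exact_mod_cast hcard1
    _ ≤ ((J * (Fintype.card α).choose (Fintype.card α / 2) : ℕ) : ℝ) := by exact_mod_cast hGcard
    _ = (J : ℝ) * ((Fintype.card α).choose (Fintype.card α / 2) : ℕ) := by push_cast; ring
    _ ≤ _ := mul_le_mul_of_nonneg_right hJle (Nat.cast_nonneg _)

theorem lo : Pool.Agent.W839.Ch.S_LO := by
  refine ⟨1, one_pos, ?_⟩
  intro V _ b h N hh hN hNc R x hR
  set p : V → Prop := fun v => h ≤ |b v| with hp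
  set s := Fintype.card {v // p v} with hs
  have hsN : N ≤ s := by
    rw [hs, Fintype.card_subtype]
    exact hNc
  have hs1 : 1 ≤ s := le_trans hN hsN
  set e := Equiv.piEquivPiSubtypeProd p (fun _ : V => Bool) with he
  -- split the count
  have hsplit : ((Finset.univ.filter (fun τ : V → Bool =>
      |∑ v, (if τ v then b v else - b v) - x| ≤ R)).card : ℝ)
      = ∑ η : {v // ¬ p v} → Bool, ((Finset.univ.filter (fun σ : {v // p v} → Bool =>
        |∑ v, (if σ v then b v else - b v)
          - (x - ∑ v : {v // ¬ p v}, (if η v then b v else - b v))| ≤ R)).card : ℝ) := by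
    have h1 : ((Finset.univ.filter (fun τ : V → Bool =>
      |∑ v, (if τ v then b v else - b v) - x| ≤ R)).card : ℝ)
      = ∑ τ : V → Bool, (if |∑ v, (if τ v then b v else - b v) - x| ≤ R then (1 : ℝ) else 0) := by
      rw [Finset.sum_boole]
    have h2 : ∀ η : {v // ¬ p v} → Bool, ((Finset.univ.filter (fun σ : {v // p v} → Bool =>
        |∑ v, (if σ v then b v else - b v)
          - (x - ∑ v : {v // ¬ p v}, (if η v then b v else - b v))| ≤ R)).card : ℝ)
        = ∑ σ : {v // p v} → Bool, (if |∑ v, (if σ v then b v else - b v)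
          - (x - ∑ v : {v // ¬ p v}, (if η v then b v else - b v))| ≤ R then (1 : ℝ) else 0) := by
      intro η
      rw [Finset.sum_boole]
    rw [h1, Finset.sum_congr rfl fun η _ => h2 η, Finset.sum_comm,
      ← Fintype.sum_prod_type' (f := fun (σ : {v // p v} → Bool) (η : {v // ¬ p v} → Bool) =>
        (if |∑ v, (if σ v then b v else - b v)
          - (x - ∑ v : {v // ¬ p v}, (if η v then b v else - b v))| ≤ R then (1 : ℝ) else 0)),
      ← Equiv.sum_comp e]
    refine Finset.sum_congr rfl fun τ _ => ?_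
    have h3 : ∑ v, (if τ v then b v else - b v) - x
        = ∑ v : {v // p v}, (if (e τ).1 v then b v else - b v)
          - (x - ∑ v : {v // ¬ p v}, (if (e τ).2 v then b v else - b v)) := by
      have h4 := Fintype.sum_subtype_add_sum_subtype p (fun v => if τ v then b v else - b v)
      have h5 : ∑ v : {v // p v}, (if (e τ).1 v then b v else - b v)
          = ∑ v : {v // p v}, (if τ v then b v else - b v) := rfl
      have h6 : ∑ v : {v // ¬ p v}, (if (e τ).2 v then b v else - b v)
          = ∑ v : {v // ¬ p v}, (if τ v then b v else - b v) := rfl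
      rw [h5, h6, ← h4]
      ring
    rw [h3]
  rw [hsplit]
  have hbase : ∀ η : {v // ¬ p v} → Bool, ((Finset.univ.filter (fun σ : {v // p v} → Bool =>
        |∑ v, (if σ v then b v else - b v)
          - (x - ∑ v : {v // ¬ p v}, (if η v then b v else - b v))| ≤ R)).card : ℝ)
        ≤ (R / h + 1) * (2 ^ s / Real.sqrt s) := by
    intro η
    have h7 := lo_base {v // p v} (fun v => b v.1) h hh (fun v => v.2) R
      (x - ∑ v : {v // ¬ p v}, (if η v then b v else - b v)) hR
    have h8 : (R / h + 1) * (((Fintype.card {v // p v}).choose (Fintype.card {v // p v} / 2) : ℕ) : ℝ)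
        ≤ (R / h + 1) * (2 ^ s / Real.sqrt s) :=
      mul_le_mul_of_nonneg_left (choose_half_le s hs1) (by positivity)
    refine le_trans (le_of_eq ?_) (h7.trans h8)
    congr!
  refine (Finset.sum_le_sum fun η _ => hbase η).trans ?_
  rw [Finset.sum_const, nsmul_eq_mul, Finset.card_univ, Fintype.card_fun, Fintype.card_bool]
  have hcards : s + Fintype.card {v // ¬ p v} = Fintype.card V := by
    rw [hs]
    have := Fintype.card_subtype_compl p
    have h2 := Fintype.card_subtype_le p
    omega
  have hsqrt : Real.sqrt N ≤ Real.sqrt s := Real.sqrt_le_sqrt (by exact_mod_cast hsN)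
  have hNpos : 0 < Real.sqrt N := Real.sqrt_pos.2 (by exact_mod_cast hN)
  rw [← hcards, pow_add]
  push_cast
  have h1 : (2 : ℝ) ^ s / Real.sqrt s ≤ 2 ^ s / Real.sqrt N := by
    gcongr
  calc (2 : ℝ) ^ Fintype.card {v // ¬ p v} * ((R / h + 1) * (2 ^ s / Real.sqrt s))
      ≤ (2 : ℝ) ^ Fintype.card {v // ¬ p v} * ((R / h + 1) * (2 ^ s / Real.sqrt N)) := by
        gcongr
    _ = 1 * (R / h + 1) / Real.sqrt N * (2 ^ s * 2 ^ Fintype.card {v // ¬ p v}) := by ring

end Pool.Agent.W120.Ch
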