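import Pool.Agent.W839.Ch.Stubs

/-! CH-12 (helper120): averaging over the swaps -/

set_option autoImplicit false
open scoped Classical
open Finset

namespace Pool.Agent.W120.Ch
open Pool.Agent.W839.Ch

variable {n : ℕ}

/-- the permutation of the ordered pairs -/
noncomputable def FF (a b : Fin n) (τ : Fin n → Bool) (q : Fin n × Fin n) : Fin n × Fin n :=
  if (q.1 ≠ a ∧ q.1 ≠ b) ∧ τ q.1 = true then (q.1, Equiv.swap a b q.2)
  else if (q.2 ≠ a ∧ q.2 ≠ b) ∧ τ q.2 = true then (Equiv.swap a b q.1, q.2) else q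

theorem FF_FF (a b : Fin n) (τ : Fin n → Bool) (q : Fin n × Fin n) :
    FF a b τ (FF a b τ q) = q := by
  obtain ⟨u, v⟩ := q
  by_cases h1 : (u ≠ a ∧ u ≠ b) ∧ τ u = true
  · have e1 : FF a b τ (u, v) = (u, Equiv.swap a b v) := by
      unfold FF; rw [if_pos h1]
    have e2 : FF a b τ (u, Equiv.swap a b v) = (u, Equiv.swap a b (Equiv.swap a b v)) := by
      unfold FF; rw [if_pos h1]
    rw [e1, e2, Equiv.swap_apply_self]
  · by_cases h2 : (v ≠ a ∧ v ≠ b) ∧ τ v = true
    · have e1 : FF a b τ (u, v) = (Equiv.swap a b u, v) := by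
        unfold FF; rw [if_neg h1, if_pos h2]
      have h3 : ¬ ((Equiv.swap a b u ≠ a ∧ Equiv.swap a b u ≠ b) ∧ τ (Equiv.swap a b u) = true) := by
        by_cases h4 : u ≠ a ∧ u ≠ b
        · rw [Equiv.swap_apply_of_ne_of_ne h4.1 h4.2]; exact h1
        · intro h5
          apply h5.1.1
          by_cases h6 : u = a
          · exfalso
            apply h5.1.2
            rw [h6, Equiv.swap_apply_left]
          · have h7 : u = b := by
              by_contra h8
              exact h4 ⟨h6, h8⟩
            rw [h7, Equiv.swap_apply_right]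
      have e2 : FF a b τ (Equiv.swap a b u, v) = (Equiv.swap a b (Equiv.swap a b u), v) := by
        unfold FF; rw [if_neg h3, if_pos h2]
      rw [e1, e2, Equiv.swap_apply_self]
    · have e1 : FF a b τ (u, v) = (u, v) := by
        unfold FF; rw [if_neg h1, if_neg h2]
      rw [e1, e1]

theorem swapG_adj (a b : Fin n) (τ : Fin n → Bool) (G : SimpleGraph (Fin n)) (u v : Fin n) :
    (swapG a b τ G).Adj u v ↔ G.Adj (FF a b τ (u, v)).1 (FF a b τ (u, v)).2 := by
  have h0 : (swapG a b τ G).Adj u v ↔ u ≠ v ∧ ((if (u ≠ a ∧ u ≠ b) ∧ τ u = true then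
      G.Adj u (Equiv.swap a b v)
    else if (v ≠ a ∧ v ≠ b) ∧ τ v = true then G.Adj (Equiv.swap a b u) v else G.Adj u v)) := Iff.rfl
  rw [h0]
  by_cases h1 : (u ≠ a ∧ u ≠ b) ∧ τ u = true
  · have e1 : FF a b τ (u, v) = (u, Equiv.swap a b v) := by
      unfold FF; rw [if_pos h1]
    rw [if_pos h1, e1]
    constructor
    · exact fun h => h.2
    · intro h
      refine ⟨?_, h⟩
      rintro rfl
      rw [Equiv.swap_apply_of_ne_of_ne h1.1.1 h1.1.2] at h
      exact G.loopless.irrefl _ h
  · by_cases h2 : (v ≠ a ∧ v ≠ b) ∧ τ v = true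
    · have e1 : FF a b τ (u, v) = (Equiv.swap a b u, v) := by
        unfold FF; rw [if_neg h1, if_pos h2]
      rw [if_neg h1, if_pos h2, e1]
      constructor
      · exact fun h => h.2
      · intro h
        refine ⟨?_, h⟩
        rintro rfl
        exact h1 h2
    · have e1 : FF a b τ (u, v) = (u, v) := by
        unfold FF; rw [if_neg h1, if_neg h2]
      rw [if_neg h1, if_neg h2, e1]
      constructor
      · exact fun h => h.2
      · intro h
        exact ⟨G.ne_of_adj h, h⟩

theorem swapG_swapG (a b : Fin n) (τ : Fin n → Bool) (G : SimpleGraph (Fin n)) :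
    swapG a b τ (swapG a b τ G) = G := by
  ext u v
  rw [swapG_adj, swapG_adj, Prod.mk.eta, FF_FF]

/-- twice the number of edges -/
theorem two_card (G : SimpleGraph (Fin n)) :
    2 * G.edgeFinset.card
      = (Finset.univ.filter (fun q : Fin n × Fin n => G.Adj q.1 q.2)).card := by
  have h1 := G.sum_degrees_eq_twice_card_edges
  have h2 : (Finset.univ.filter (fun q : Fin n × Fin n => G.Adj q.1 q.2)).card
      = ∑ v, G.degree v := by
    rw [Finset.card_filter, Fintype.sum_prod_type]
    refine Finset.sum_congr rfl fun v _ => ?_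
    rw [← Finset.card_filter]
    unfold SimpleGraph.degree
    congr 1
    ext w
    simp
  rw [h2, h1]

theorem card_swapG (a b : Fin n) (τ : Fin n → Bool) (G : SimpleGraph (Fin n)) :
    (swapG a b τ G).edgeFinset.card = G.edgeFinset.card := by
  have h1 := two_card (swapG a b τ G)
  have h2 := two_card G
  have h3 : (Finset.univ.filter (fun q : Fin n × Fin n => (swapG a b τ G).Adj q.1 q.2)).card
      = (Finset.univ.filter (fun q : Fin n × Fin n => G.Adj q.1 q.2)).card := by
    refine Finset.card_bij' (fun q _ => FF a b τ q) (fun q _ => FF a b τ q) ?_ ?_ ?_ ?_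
    · intro q hq
      rw [Finset.mem_filter] at hq ⊢
      exact ⟨Finset.mem_univ _, (swapG_adj a b τ G q.1 q.2).1 hq.2⟩
    · intro q hq
      rw [Finset.mem_filter] at hq ⊢
      refine ⟨Finset.mem_univ _, (swapG_adj a b τ G _ _).2 ?_⟩
      rw [Prod.mk.eta, FF_FF]
      exact hq.2
    · intro q _; exact FF_FF a b τ q
    · intro q _; exact FF_FF a b τ q
  rw [h3, ← h2] at h1
  omega

theorem wt_swapG (p : ℝ) (a b : Fin n) (τ : Fin n → Bool) (G : SimpleGraph (Fin n)) :
    wt n p (swapG a b τ G) = wt n p G := by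
  unfold wt
  rw [card_swapG]

theorem swp : S_SWP := by
  intro n p a b _ P
  have h1 : ∀ τ : Fin n → Bool, Pr n p P
      = ∑ G : SimpleGraph (Fin n), (if P (swapG a b τ G) then wt n p G else 0) := by
    intro τ
    let e : SimpleGraph (Fin n) ≃ SimpleGraph (Fin n) :=
      ⟨swapG a b τ, swapG a b τ, swapG_swapG a b τ, swapG_swapG a b τ⟩
    unfold Pr
    rw [← Equiv.sum_comp e]
    refine Finset.sum_congr rfl fun G _ => ?_
    show (if P (swapG a b τ G) then wt n p (swapG a b τ G) else 0) = _
    rw [wt_swapG]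
  have h2 : (2 : ℝ) ^ n * Pr n p P = ∑ τ : Fin n → Bool,
      ∑ G : SimpleGraph (Fin n), (if P (swapG a b τ G) then wt n p G else 0) := by
    rw [← Finset.sum_congr rfl fun τ _ => h1 τ, Finset.sum_const, nsmul_eq_mul]
    simp
  have h3 : ∀ G : SimpleGraph (Fin n), ∑ τ : Fin n → Bool,
      (if P (swapG a b τ G) then wt n p G else 0)
      = wt n p G * ((Finset.univ.filter (fun τ : Fin n → Bool => P (swapG a b τ G))).card : ℝ) := by
    intro G
    rw [← Finset.sum_filter, Finset.sum_const, nsmul_eq_mul, mul_comm]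
  rw [Finset.sum_comm, Finset.sum_congr rfl fun G _ => h3 G] at h2
  have h4 : (0 : ℝ) < 2 ^ n := by positivity
  have h5 : Pr n p P = (∑ G : SimpleGraph (Fin n), wt n p G *
      ((Finset.univ.filter (fun τ : Fin n → Bool => P (swapG a b τ G))).card : ℝ)) / 2 ^ n := by
    rw [eq_div_iff h4.ne', mul_comm, h2]
  rw [h5, Finset.sum_div]
  exact Finset.sum_congr rfl fun G _ => by rw [mul_div_assoc]

end Pool.Agent.W120.Ch
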