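import Pool.Agent.W839.Ch.Stubs

/-! CH-1 (helper120): independent bits -/

set_option autoImplicit false
open scoped Classical
open Finset

namespace Pool.Agent.W120.Ch
open Pool.Agent.W839.Ch

variable {ι : Type} [Fintype ι]

theorem EB_mul_left (p c : ℝ) (F : (ι → Bool) → ℝ) : EB p (fun ω => c * F ω) = c * EB p F := by
  unfold EB
  rw [Finset.mul_sum]
  exact Finset.sum_congr rfl fun ω _ => by ring

theorem EB_mul_right (p c : ℝ) (F : (ι → Bool) → ℝ) : EB p (fun ω => F ω * c) = EB p F * c := by
  unfold EB
  rw [Finset.sum_mul]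
  exact Finset.sum_congr rfl fun ω _ => by ring

/-- product formula -/
theorem sum_prod (g : ι → Bool → ℝ) : ∑ ω : ι → Bool, ∏ i, g i (ω i) = ∏ i, (g i true + g i false) := by
  have h := Finset.prod_univ_sum (fun _ : ι => (Finset.univ : Finset Bool)) g
  rw [Fintype.piFinset_univ] at h
  rw [← h]
  refine Finset.prod_congr rfl fun i _ => ?_
  rw [Fintype.sum_bool]

theorem bw_add (p : ℝ) : bw p true + bw p false = 1 := by simp [bw]

theorem EB_one (p : ℝ) : EB p (fun _ : ι → Bool => (1 : ℝ)) = 1 := by
  unfold EB
  simp only [mul_one]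
  rw [sum_prod (fun _ => bw p)]
  simp [bw_add]

theorem EB_const (p c : ℝ) : EB p (fun _ : ι → Bool => c) = c := by
  have h := EB_mul_left (ι := ι) p c (fun _ => 1)
  rw [EB_one] at h
  simpa using h

theorem mix : S_MIX := by
  intro ι _ p B F
  let mx : (ι → Bool) × (ι → Bool) → (ι → Bool) × (ι → Bool) := fun q =>
    (fun i => if B i then q.2 i else q.1 i, fun i => if B i then q.1 i else q.2 i)
  have hmx : ∀ q, mx (mx q) = q := by
    intro q
    refine Prod.ext ?_ ?_ <;> funext i <;> by_cases h : B i <;> simp [mx, h]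
  let e : (ι → Bool) × (ι → Bool) ≃ (ι → Bool) × (ι → Bool) := ⟨mx, mx, hmx, hmx⟩
  have h1 : EB p (fun ω => EB p (fun η => F (fun i => if B i then η i else ω i)))
      = ∑ q : (ι → Bool) × (ι → Bool), (∏ i, bw p (q.1 i)) * (∏ i, bw p (q.2 i)) * F (mx q).1 := by
    unfold EB
    rw [Fintype.sum_prod_type]
    refine Finset.sum_congr rfl fun ω _ => ?_
    rw [Finset.mul_sum]
    refine Finset.sum_congr rfl fun η _ => ?_
    show _ = (∏ i, bw p (ω i)) * (∏ i, bw p (η i)) * F (fun i => if B i then η i else ω i)
    ring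
  have h2 : ∀ q : (ι → Bool) × (ι → Bool), (∏ i, bw p (q.1 i)) * (∏ i, bw p (q.2 i))
      = (∏ i, bw p ((mx q).1 i)) * (∏ i, bw p ((mx q).2 i)) := by
    intro q
    rw [← Finset.prod_mul_distrib, ← Finset.prod_mul_distrib]
    refine Finset.prod_congr rfl fun i _ => ?_
    show _ = bw p (if B i then q.2 i else q.1 i) * bw p (if B i then q.1 i else q.2 i)
    by_cases h : B i
    · rw [if_pos h, if_pos h]; ring
    · rw [if_neg h, if_neg h]
  rw [h1, Finset.sum_congr rfl fun q _ => by rw [h2 q]]
  have h5 : ∑ q : (ι → Bool) × (ι → Bool), (∏ i, bw p ((mx q).1 i)) * (∏ i, bw p ((mx q).2 i))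
      * F (mx q).1 = ∑ q : (ι → Bool) × (ι → Bool), (∏ i, bw p (q.1 i)) * (∏ i, bw p (q.2 i))
      * F q.1 := Equiv.sum_comp e (fun q => (∏ i, bw p (q.1 i)) * (∏ i, bw p (q.2 i)) * F q.1)
  rw [h5]
  rw [Fintype.sum_prod_type]
  unfold EB
  refine Finset.sum_congr rfl fun ω _ => ?_
  have h3 := EB_one (ι := ι) p
  unfold EB at h3
  simp only [mul_one] at h3
  have h4 : ∑ η : ι → Bool, (∏ i, bw p (ω i)) * (∏ i, bw p (η i)) * F ω
      = (∏ i, bw p (ω i)) * F ω * ∑ η : ι → Bool, ∏ i, bw p (η i) := by
    rw [Finset.mul_sum]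
    exact Finset.sum_congr rfl fun η _ => by ring
  rw [h4, h3, mul_one]

theorem blk : S_BLK := by
  intro ι J _ _ p B h hdep
  have key : ∀ T : Finset J, EB p (fun ω => ∏ j ∈ T, h j ω) = ∏ j ∈ T, EB p (h j) := by
    intro T
    induction T using Finset.induction_on with
    | empty => simp only [Finset.prod_empty]; exact EB_one p
    | insert j T hj ih =>
      rw [Finset.prod_insert hj, ← ih, mix ι p (fun i => B i = some j)]
      have h1 : ∀ ω η : ι → Bool, (∏ k ∈ insert j T, h k (fun i => if B i = some j then η i else ω i))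
          = h j η * ∏ k ∈ T, h k ω := by
        intro ω η
        rw [Finset.prod_insert hj]
        congr 1
        · apply hdep
          intro i hi
          rw [if_pos hi]
        · refine Finset.prod_congr rfl fun k hk => ?_
          apply hdep
          intro i hi
          rw [if_neg]
          intro h2
          rw [hi] at h2
          apply hj
          rw [← Option.some.inj h2]
          exact hk
      have h1' : (fun ω => EB p (fun η => (fun ω => ∏ k ∈ insert j T, h k ω)
          (fun i => if B i = some j then η i else ω i)))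
          = fun ω => EB p (fun η => h j η * ∏ k ∈ T, h k ω) := by
        funext ω
        congr 1
        funext η
        exact h1 ω η
      refine Eq.trans (congrArg (EB p) ?_) ((congrArg (EB p) h1').trans ?_)
      · funext ω
        congr 1
        funext η
        refine Finset.prod_congr rfl fun k _ => ?_
        congr!
      have h2 : ∀ ω : ι → Bool, EB p (fun η => h j η * ∏ k ∈ T, h k ω)
          = EB p (h j) * ∏ k ∈ T, h k ω := fun ω => EB_mul_right p _ (h j)
      simp only [h2]
      exact EB_mul_left p _ _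
  exact key Finset.univ

/-- product formula for the expectation -/
theorem EB_prod (p : ℝ) (k : ι → Bool → ℝ) :
    EB p (fun ω : ι → Bool => ∏ i, k i (ω i)) = ∏ i, (p * k i true + (1 - p) * k i false) := by
  unfold EB
  have h := sum_prod (fun i b => bw p b * k i b)
  simp only [Finset.prod_mul_distrib] at h
  rw [h]
  refine Finset.prod_congr rfl fun i _ => ?_
  simp [bw]

theorem bit : S_BIT := by
  intro n p F
  -- group by the graph
  have h1 : EB p (fun ω : Sym2 (Fin n) → Bool => F (gr ω))
      = ∑ G : SimpleGraph (Fin n), EB p (fun ω : Sym2 (Fin n) → Bool =>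
        (if gr ω = G then (1 : ℝ) else 0)) * F G := by
    unfold EB
    simp only [Finset.sum_mul]
    rw [Finset.sum_comm]
    refine Finset.sum_congr rfl fun ω _ => ?_
    simp only [mul_ite, mul_one, mul_zero, ite_mul, zero_mul]
    rw [Finset.sum_ite_eq, if_pos (Finset.mem_univ _)]
  rw [h1]
  refine Finset.sum_congr rfl fun G _ => ?_
  congr 1
  -- the fibre
  set k : Sym2 (Fin n) → Bool → ℝ := fun e b =>
    (if e.IsDiag then 1 else if (b = true ↔ e ∈ G.edgeSet) then 1 else 0) with hk
  have h2 : (fun ω : Sym2 (Fin n) → Bool => (if gr ω = G then (1 : ℝ) else 0))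
      = fun ω => ∏ e, k e (ω e) := by
    funext ω
    rw [hk]
    by_cases h : gr ω = G
    · rw [if_pos h]
      symm
      apply Finset.prod_eq_one
      intro e _
      by_cases hd : e.IsDiag
      · simp only [if_pos hd]
      · simp only [if_neg hd]
        rw [if_pos]
        induction e using Sym2.ind with
        | _ u v =>
          rw [SimpleGraph.mem_edgeSet, ← h]
          show ω s(u, v) = true ↔ u ≠ v ∧ ω s(u, v) = true
          rw [Sym2.mk_isDiag_iff] at hd
          exact ⟨fun h => ⟨hd, h⟩, fun h => h.2⟩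
    · rw [if_neg h]
      have h3 : ∃ e : Sym2 (Fin n), (if e.IsDiag then (1 : ℝ)
          else if (ω e = true ↔ e ∈ G.edgeSet) then 1 else 0) = 0 := by
        by_contra hno
        push Not at hno
        apply h
        ext u v
        have h4 := hno s(u, v)
        by_cases huv : u = v
        · subst huv
          constructor
          · intro h; exact absurd rfl h.1
          · intro h; exact absurd rfl (G.ne_of_adj h)
        · have hd : ¬ (s(u, v) : Sym2 (Fin n)).IsDiag := by
            rw [Sym2.mk_isDiag_iff]; exact huv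
          rw [if_neg hd] at h4
          by_cases h5 : (ω s(u, v) = true ↔ s(u, v) ∈ G.edgeSet)
          · rw [SimpleGraph.mem_edgeSet] at h5
            show u ≠ v ∧ ω s(u, v) = true ↔ _
            rw [h5]
            exact ⟨fun h => h.2, fun h => ⟨huv, h⟩⟩
          · rw [if_neg h5] at h4
            exact absurd rfl h4
      obtain ⟨e, he⟩ := h3
      exact (Finset.prod_eq_zero (Finset.mem_univ e) he).symm
  rw [h2, EB_prod]
  -- the value of the factors
  have h3 : ∀ e : Sym2 (Fin n), p * k e true + (1 - p) * k e false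
      = if e.IsDiag then 1 else if e ∈ G.edgeSet then p else 1 - p := by
    intro e
    rw [hk]
    by_cases hd : e.IsDiag
    · simp only [if_pos hd]
      ring
    · simp only [if_neg hd]
      by_cases he : e ∈ G.edgeSet
      · simp [he]
      · simp [he]
  rw [Finset.prod_congr rfl fun e _ => h3 e]
  rw [← Finset.prod_filter_mul_prod_filter_not Finset.univ (fun e : Sym2 (Fin n) => e.IsDiag)]
  have h4 : ∏ e ∈ Finset.univ.filter (fun e : Sym2 (Fin n) => e.IsDiag),
      (if e.IsDiag then 1 else if e ∈ G.edgeSet then p else 1 - p) = 1 := by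
    apply Finset.prod_eq_one
    intro e he
    rw [if_pos (Finset.mem_filter.1 he).2]
  have h5 : ∏ e ∈ Finset.univ.filter (fun e : Sym2 (Fin n) => ¬ e.IsDiag),
      (if e.IsDiag then 1 else if e ∈ G.edgeSet then p else 1 - p)
      = ∏ e ∈ Finset.univ.filter (fun e : Sym2 (Fin n) => ¬ e.IsDiag),
        (if e ∈ G.edgeSet then p else 1 - p) := by
    refine Finset.prod_congr rfl fun e he => ?_
    rw [if_neg (Finset.mem_filter.1 he).2]
  rw [h4, one_mul, h5, Finset.prod_ite, Finset.prod_const, Finset.prod_const]
  have hE : (Finset.univ.filter (fun e : Sym2 (Fin n) => ¬ e.IsDiag)).filter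
      (fun e => e ∈ G.edgeSet) = G.edgeFinset := by
    ext e
    simp only [Finset.mem_filter, Finset.mem_univ, true_and, SimpleGraph.mem_edgeFinset]
    constructor
    · exact fun h => h.2
    · intro h
      exact ⟨G.not_isDiag_of_mem_edgeSet h, h⟩
  have hcard : (Finset.univ.filter (fun e : Sym2 (Fin n) => ¬ e.IsDiag)).card = n.choose 2 := by
    have := Sym2.card_subtype_not_diag (α := Fin n)
    rw [Fintype.card_subtype, Fintype.card_fin] at this
    convert this
  have hN : ((Finset.univ.filter (fun e : Sym2 (Fin n) => ¬ e.IsDiag)).filter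
      (fun e => ¬ e ∈ G.edgeSet)).card = n.choose 2 - G.edgeFinset.card := by
    have := Finset.card_filter_add_card_filter_not
      (s := Finset.univ.filter (fun e : Sym2 (Fin n) => ¬ e.IsDiag)) (fun e => e ∈ G.edgeSet)
    rw [hE, hcard] at this
    omega
  rw [hE, hN]
  rfl

end Pool.Agent.W120.Ch
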